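import Pool.Agent.H61.AR.Targets
import Pool.Agent.H60.CM.Basic
import Pool.Agent.H55.CM.PAT

/-!
# Parametrizations near boundary points
-/

set_option autoImplicit false

open Set Function MeasureTheory Filter Topology
open scoped Manifold ContDiff Matrix
open Pool.Agent.H61.AR Pool.Agent.H60.CM

namespace Pool.Agent.H4.AR

theorem rgH : range (𝓡∂ 2) = Hp := by
  rw [range_modelWithCornersEuclideanHalfSpace]
  rfl

theorem hp_uniq : UniqueDiffOn ℝ Hp := by
  rw [← rgH]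
  exact (𝓡∂ 2).uniqueDiffOn

theorem box_open (a : ℝ) : IsOpen {y : E2 | y 0 < a ∧ |y 1| < a} := by
  refine IsOpen.and ?_ ?_
  · exact isOpen_lt (by fun_prop) continuous_const
  · exact isOpen_lt (by fun_prop) continuous_const

theorem qi_open (a : ℝ) : IsOpen (Qi a) := by
  refine IsOpen.and ?_ (box_open a)
  exact isOpen_lt continuous_const (by fun_prop)

theorem qi_qb (a : ℝ) : Qi a ⊆ Qb a := fun y hy => ⟨hy.1.le, hy.2.1, hy.2.2⟩

theorem box_small {V : Set E2} (hV : V ∈ 𝓝[Hp] (0 : E2)) : ∃ a : ℝ, 0 < a ∧ Qb a ⊆ V := by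
  obtain ⟨e, he, h⟩ := Metric.mem_nhdsWithin_iff.1 hV
  refine ⟨e / 2, half_pos he, fun y hy => h ⟨?_, hy.1⟩⟩
  rw [mem_ball_zero_iff, EuclideanSpace.norm_eq, Fin.sum_univ_two]
  have h0 : ‖y 0‖ ^ 2 < (e / 2) ^ 2 := by
    have h1 : ‖y 0‖ < e / 2 := by
      rw [Real.norm_eq_abs, abs_of_nonneg hy.1]
      exact hy.2.1
    exact pow_lt_pow_left₀ h1 (norm_nonneg _) two_ne_zero
  have h2 : ‖y 1‖ ^ 2 < (e / 2) ^ 2 := by
    have h1 : ‖y 1‖ < e / 2 := hy.2.2
    exact pow_lt_pow_left₀ h1 (norm_nonneg _) two_ne_zero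
  rw [Real.sqrt_lt' he]
  nlinarith

theorem pf_BCH : T_BCH := by
  intro D p U hp hU hpU
  set ys : E2 := extChartAt (𝓡∂ 2) p p with hys
  have hy0 : ys 0 = 0 := by
    have h1 : (𝓡∂ 2).IsBoundaryPoint p := hp
    rw [ModelWithCorners.isBoundaryPoint_iff,
      frontier_range_modelWithCornersEuclideanHalfSpace] at h1
    exact h1.symm
  have hadd0 : ∀ y : E2, (y + ys) 0 = y 0 := by
    intro y
    have h1 : (y + ys) 0 = y 0 + ys 0 := rfl
    rw [h1, hy0, add_zero]
  have hadd1 : ∀ y : E2, (y + ys) 1 = y 1 + ys 1 := fun y => rfl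
  have hsub0 : ∀ y : E2, (y - ys) 0 = y 0 := by
    intro y
    have h1 : (y - ys) 0 = y 0 - ys 0 := rfl
    rw [h1, hy0, sub_zero]
  have hsub1 : ∀ y : E2, (y - ys) 1 = y 1 - ys 1 := fun y => rfl
  have hmap : MapsTo (fun y : E2 => y + ys) Hp (range (𝓡∂ 2)) := by
    intro y hy
    rw [rgH]
    change 0 ≤ (y + ys) 0
    rw [hadd0]
    exact hy
  have hV : {y : E2 | y + ys ∈ (extChartAt (𝓡∂ 2) p).target ∧
      (extChartAt (𝓡∂ 2) p).symm (y + ys) ∈ U} ∈ 𝓝[Hp] (0 : E2) := by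
    have ht : Tendsto (fun y : E2 => y + ys) (𝓝[Hp] (0 : E2)) (𝓝[range (𝓡∂ 2)] ys) := by
      rw [tendsto_nhdsWithin_iff]
      constructor
      · have h1 : Tendsto (fun y : E2 => y + ys) (𝓝 (0 : E2)) (𝓝 (0 + ys)) := by
          exact (continuous_id.add continuous_const).tendsto 0
        rw [zero_add] at h1
        exact h1.mono_left nhdsWithin_le_nhds
      · filter_upwards [self_mem_nhdsWithin] with y hy
        exact hmap hy
    have h2 : (extChartAt (𝓡∂ 2) p).target ∩ (extChartAt (𝓡∂ 2) p).symm ⁻¹' U ∈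
        𝓝[range (𝓡∂ 2)] ys := by
      refine inter_mem (extChartAt_target_mem_nhdsWithin (I := 𝓡∂ 2) p) ?_
      refine mem_nhdsWithin_of_mem_nhds ?_
      have h3 := continuousAt_extChartAt_symm (I := 𝓡∂ 2) p
      refine h3 ?_
      rw [extChartAt_to_inv]
      exact hU.mem_nhds hpU
    exact ht h2
  obtain ⟨a, ha, hQ⟩ := box_small hV
  have htar : ∀ y ∈ Qb a, y + ys ∈ (extChartAt (𝓡∂ 2) p).target := fun y hy => (hQ hy).1
  have hinj : InjOn (fun y : E2 => (extChartAt (𝓡∂ 2) p).symm (y + ys)) (Qb a) := by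
    intro y hy z hz h
    have h1 := (extChartAt (𝓡∂ 2) p).symm.injOn (htar y hy) (htar z hz) h
    exact add_right_cancel h1
  have him : ∀ G : Set E2, IsOpen G →
      IsOpen ((fun y : E2 => (extChartAt (𝓡∂ 2) p).symm (y + ys)) '' (Qb a ∩ G)) := by
    intro G hG
    have ho : IsOpen {z : E2 | z - ys ∈ G ∩ {y : E2 | y 0 < a ∧ |y 1| < a}} :=
      (hG.inter (box_open a)).preimage (continuous_id.sub continuous_const)
    have h1 : (fun y : E2 => (extChartAt (𝓡∂ 2) p).symm (y + ys)) '' (Qb a ∩ G) =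
        (extChartAt (𝓡∂ 2) p).source ∩ extChartAt (𝓡∂ 2) p ⁻¹'
          {z : E2 | z - ys ∈ G ∩ {y : E2 | y 0 < a ∧ |y 1| < a}} := by
      ext q
      constructor
      · rintro ⟨y, ⟨hy, hyG⟩, rfl⟩
        refine ⟨(extChartAt (𝓡∂ 2) p).map_target (htar y hy), ?_⟩
        change extChartAt (𝓡∂ 2) p ((extChartAt (𝓡∂ 2) p).symm (y + ys)) - ys ∈
          G ∩ {y : E2 | y 0 < a ∧ |y 1| < a}
        rw [(extChartAt (𝓡∂ 2) p).right_inv (htar y hy), add_sub_cancel_right]
        exact ⟨hyG, hy.2⟩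
      · rintro ⟨hq, hq2, hq3⟩
        refine ⟨extChartAt (𝓡∂ 2) p q - ys, ⟨⟨?_, hq3⟩, hq2⟩, ?_⟩
        · have h2 : extChartAt (𝓡∂ 2) p q ∈ range (𝓡∂ 2) :=
            extChartAt_target_subset_range (I := 𝓡∂ 2) p ((extChartAt (𝓡∂ 2) p).map_source hq)
          rw [rgH] at h2
          rw [hsub0]
          exact h2
        · change (extChartAt (𝓡∂ 2) p).symm (extChartAt (𝓡∂ 2) p q - ys + ys) = q
          rw [sub_add_cancel]
          exact (extChartAt (𝓡∂ 2) p).left_inv hq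
    rw [h1]
    exact (continuousOn_extChartAt p).isOpen_inter_preimage (isOpen_extChartAt_source p) ho
  have himm : ∀ y ∈ Qb a,
      pw (D.x ∘ fun y : E2 => (extChartAt (𝓡∂ 2) p).symm (y + ys)) y 0 ⨯₃
        pw (D.x ∘ fun y : E2 => (extChartAt (𝓡∂ 2) p).symm (y + ys)) y 1 ≠ 0 := by
    intro y hy
    have hyt := htar y hy
    have i1 : IsManifold (𝓡∂ 2) 1 D.S := IsManifold.of_le (m := 1) (n := ∞) (by simp)
    have hL := mfderiv_extChartAt_comp_mfderivWithin_extChartAt_symm (I := 𝓡∂ 2) hyt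
    have hm := mdifferentiableWithinAt_extChartAt_symm (I := 𝓡∂ 2) hyt
    have hx : MDifferentiableAt (𝓡∂ 2) 𝓘(ℝ, V3) D.x ((extChartAt (𝓡∂ 2) p).symm (y + ys)) :=
      (D.cmc.x_smooth _).mdifferentiableAt (by simp)
    have hi : Injective (mfderivWithin 𝓘(ℝ, E2) (𝓡∂ 2) (extChartAt (𝓡∂ 2) p).symm
        (range (𝓡∂ 2)) (y + ys)) := by
      intro a b hab
      have h1 := congrArg (fun T => T a) hL
      have h2 := congrArg (fun T => T b) hL
      simp only [ContinuousLinearMap.comp_apply] at h1 h2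
      rw [hab, h2] at h1
      exact h1.symm
    have hc := (hx.hasMFDerivAt.comp_hasMFDerivWithinAt (y + ys)
      hm.hasMFDerivWithinAt).hasFDerivWithinAt
    have ht : HasFDerivWithinAt (fun y : E2 => y + ys) (ContinuousLinearMap.id ℝ E2) Hp y :=
      ((hasFDerivAt_id y).add_const ys).hasFDerivWithinAt
    have hd := HasFDerivWithinAt.comp y hc ht hmap
    have hp0 : ∀ i, pw (D.x ∘ fun y : E2 => (extChartAt (𝓡∂ 2) p).symm (y + ys)) y i =
        mfderiv (𝓡∂ 2) 𝓘(ℝ, V3) D.x ((extChartAt (𝓡∂ 2) p).symm (y + ys))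
          (mfderivWithin 𝓘(ℝ, E2) (𝓡∂ 2) (extChartAt (𝓡∂ 2) p).symm (range (𝓡∂ 2)) (y + ys)
            (ee i)) := by
      intro i
      unfold pw
      have h1 := hd.fderivWithin (hp_uniq y hy.1)
      have h2 := congrArg (fun T => T (ee i)) h1
      exact h2
    rw [hp0, hp0]
    exact Pool.Agent.H55.CM.cross_ne
      (A := mfderiv (𝓡∂ 2) 𝓘(ℝ, V3) D.x ((extChartAt (𝓡∂ 2) p).symm (y + ys)))
      (L := mfderivWithin 𝓘(ℝ, E2) (𝓡∂ 2) (extChartAt (𝓡∂ 2) p).symm (range (𝓡∂ 2)) (y + ys))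
      (D.cmc.imm _) hi
  refine ⟨a, fun y : E2 => (extChartAt (𝓡∂ 2) p).symm (y + ys), ⟨ha, hinj, him, ?_, ?_, ?_, ?_,
    himm⟩, ?_, ?_⟩
  · intro y hy h0
    have ht2 := htar y hy
    have hs : (extChartAt (𝓡∂ 2) p).symm (y + ys) ∈
        (extChartAt (𝓡∂ 2) p).source := (extChartAt (𝓡∂ 2) p).map_target ht2
    rw [← D.not_int]
    intro hin
    have hin2 : (𝓡∂ 2).IsInteriorPoint ((extChartAt (𝓡∂ 2) p).symm (y + ys)) := hin
    rw [(𝓡∂ 2).isInteriorPoint_iff_of_mem_atlas (n := ∞) (by simp)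
      (chart_mem_atlas (EuclideanHalfSpace 2) p) (by rwa [extChartAt_source] at hs)] at hin2
    have h3 : (extChartAt (𝓡∂ 2) p) ((extChartAt (𝓡∂ 2) p).symm (y + ys)) ∈
        interior (range (𝓡∂ 2)) :=
      interior_mono (extChartAt_target_subset_range (I := 𝓡∂ 2) p) hin2
    rw [(extChartAt (𝓡∂ 2) p).right_inv ht2,
      interior_range_modelWithCornersEuclideanHalfSpace] at h3
    have h4 : 0 < (y + ys) 0 := h3
    rw [hadd0, h0] at h4
    exact lt_irrefl _ h4
  · refine ⟨qi_open a, ?_, hinj.mono (qi_qb a), ?_, ?_, ?_⟩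
    · exact (contMDiffOn_extChartAt_symm p).comp
        ((contDiff_id.add contDiff_const).contMDiff.contMDiffOn) fun y hy => htar y (qi_qb a hy)
    · intro V hV hVo
      have h1 := him V hVo
      rw [inter_eq_right.mpr (hV.trans (qi_qb a))] at h1
      exact h1
    · rintro q ⟨y, hy, rfl⟩
      have hyt := htar y (qi_qb a hy)
      have h1 : (extChartAt (𝓡∂ 2) p).symm (y + ys) ∈
          (chartAt (EuclideanHalfSpace 2) p).source := by
        rw [← extChartAt_source (𝓡∂ 2)]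
        exact (extChartAt (𝓡∂ 2) p).map_target hyt
      have h2 := ModelWithCorners.isInteriorPoint_iff_of_mem_atlas (I := 𝓡∂ 2) (n := ∞)
        (by simp) (chart_mem_atlas _ p) h1
      refine h2.2 ?_
      change extChartAt (𝓡∂ 2) p ((extChartAt (𝓡∂ 2) p).symm (y + ys)) ∈
        interior (extChartAt (𝓡∂ 2) p).target
      rw [(extChartAt (𝓡∂ 2) p).right_inv hyt]
      have ho : IsOpen {z : E2 | z - ys ∈ Qi a} :=
        (qi_open a).preimage (continuous_id.sub continuous_const)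
      refine interior_maximal (s := (extChartAt (𝓡∂ 2) p).target) ?_ ho ?_
      · intro z hz
        have h3 := htar (z - ys) (qi_qb a hz)
        rwa [sub_add_cancel] at h3
      · change y + ys - ys ∈ Qi a
        rw [add_sub_cancel_right]
        exact hy
    · intro y hy
      have hn : Hp ∈ 𝓝 y := by
        refine Filter.mem_of_superset ((qi_open a).mem_nhds hy) fun z hz => hz.1.le
      have h1 := himm y (qi_qb a hy)
      unfold pw at h1
      rw [fderivWithin_of_mem_nhds hn] at h1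
      exact h1
  · exact (continuousOn_extChartAt_symm p).comp
      (continuous_id.add continuous_const).continuousOn htar
  · intro F _ _ f hf
    have h1 : ContMDiffOn 𝓘(ℝ, E2) 𝓘(ℝ, F) ∞ (f ∘ (extChartAt (𝓡∂ 2) p).symm)
        (extChartAt (𝓡∂ 2) p).target :=
      ContMDiff.comp_contMDiffOn hf (contMDiffOn_extChartAt_symm p)
    exact (contMDiffOn_iff_contDiffOn.1 h1).comp
      (contDiff_id.add contDiff_const).contDiffOn htar
  · change (extChartAt (𝓡∂ 2) p).symm (0 + ys) = p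
    rw [zero_add]
    exact extChartAt_to_inv p
  · rintro q ⟨y, hy, rfl⟩
    exact (hQ hy).2

end Pool.Agent.H4.AR
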