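import Pool.Agent.H61.AR.Targets
import Pool.Agent.H60.CM.Basic

/-!
# The monotonicity identity
-/

set_option autoImplicit false

open Set Function MeasureTheory Filter Topology
open scoped Manifold ContDiff Matrix
open Pool.Agent.H61.AR Pool.Agent.H60.CM

namespace Pool.Agent.H4.AR

/-- the components of the vector field -/
noncomputable def fv (D : Dat) (c : V3) (ε : ℝ) (i : Fin 3) (q : D.S) : ℝ :=
  (D.N q ⨯₃ (ph D c ε q • (D.x q - c))) i

theorem sqd_eq (y c : V3) : sqd y c = (y 0 - c 0) * (y 0 - c 0) + ((y 1 - c 1) * (y 1 - c 1) +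
    (y 2 - c 2) * (y 2 - c 2)) := by
  simp only [sqd, Matrix.vec3_dotProduct, Pi.sub_apply]
  ring

theorem sqd_pos (y c : V3) {ε : ℝ} (hε : 0 < ε) : 0 < sqd y c + ε ^ 2 := by
  rw [sqd_eq]
  have h1 := mul_self_nonneg (y 0 - c 0)
  have h2 := mul_self_nonneg (y 1 - c 1)
  have h3 := mul_self_nonneg (y 2 - c 2)
  have h4 := pow_pos hε 2
  linarith

theorem fv0 (D : Dat) (c : V3) (ε : ℝ) : fv D c ε 0 = fun q =>
    D.N q 1 * (ph D c ε q * (D.x q 2 - c 2)) - D.N q 2 * (ph D c ε q * (D.x q 1 - c 1)) := by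
  funext q
  simp only [fv, cross_apply, Pi.smul_apply, Pi.sub_apply, smul_eq_mul, Matrix.cons_val_zero,
    Matrix.cons_val_one, Matrix.cons_val]

theorem fv1 (D : Dat) (c : V3) (ε : ℝ) : fv D c ε 1 = fun q =>
    D.N q 2 * (ph D c ε q * (D.x q 0 - c 0)) - D.N q 0 * (ph D c ε q * (D.x q 2 - c 2)) := by
  funext q
  simp only [fv, cross_apply, Pi.smul_apply, Pi.sub_apply, smul_eq_mul, Matrix.cons_val_zero,
    Matrix.cons_val_one, Matrix.cons_val]

theorem fv2 (D : Dat) (c : V3) (ε : ℝ) : fv D c ε 2 = fun q =>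
    D.N q 0 * (ph D c ε q * (D.x q 1 - c 1)) - D.N q 1 * (ph D c ε q * (D.x q 0 - c 0)) := by
  funext q
  simp only [fv, cross_apply, Pi.smul_apply, Pi.sub_apply, smul_eq_mul, Matrix.cons_val_zero,
    Matrix.cons_val_one, Matrix.cons_val]

theorem sm_ph (D : Dat) (c : V3) {ε : ℝ} (hε : 0 < ε) : D.Sm (ph D c ε) := by
  have h : ContDiff ℝ ∞ (fun y : V3 => 1 / (sqd y c + ε ^ 2)) := by
    refine contDiff_const.div ?_ fun y => (sqd_pos y c hε).ne'
    simp only [sqd_eq]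
    fun_prop
  exact Dat.Sm.comp_left D D.smx h

theorem sm_Y (D : Dat) (c : V3) {ε : ℝ} (hε : 0 < ε) (k : Fin 3) :
    D.Sm (fun q => ph D c ε q * (D.x q k - c k)) :=
  Dat.Sm.mul D (sm_ph D c hε) (Dat.Sm.sub D (Dat.Sm.coord D D.smx k) (Dat.Sm.const D (c k)))

theorem sm_fv (D : Dat) (c : V3) {ε : ℝ} (hε : 0 < ε) (i : Fin 3) : D.Sm (fv D c ε i) := by
  have h : ∀ k l : Fin 3, D.Sm (fun q => D.N q k * (ph D c ε q * (D.x q l - c l)) -
      D.N q l * (ph D c ε q * (D.x q k - c k))) := fun k l =>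
    Dat.Sm.sub D (Dat.Sm.mul D (Dat.Sm.coord D D.smN k) (sm_Y D c hε l))
      (Dat.Sm.mul D (Dat.Sm.coord D D.smN l) (sm_Y D c hε k))
  fin_cases i
  · change D.Sm (fv D c ε 0)
    rw [fv0]
    exact h 1 2
  · change D.Sm (fv D c ε 1)
    rw [fv1]
    exact h 2 0
  · change D.Sm (fv D c ε 2)
    rw [fv2]
    exact h 0 1

theorem dd_xc (D : Dat) (c : V3) (p : D.S) (k : Fin 3) (j : Fin 2) :
    dd (fun q => D.x q k - c k) p j = dd D.x p j k := by
  rw [dd_sub (MD.coord (Dat.Sm.md D D.smx p) k) (md_const (c k) p), dd_const,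
    dd_coord (Dat.Sm.md D D.smx p), sub_zero]

theorem md_xc (D : Dat) (c : V3) (p : D.S) (k : Fin 3) : MD (fun q => D.x q k - c k) p :=
  (MD.coord (Dat.Sm.md D D.smx p) k).sub (md_const (c k) p)

theorem dd_sqd (D : Dat) (c : V3) (e : ℝ) (p : D.S) (j : Fin 2) :
    dd (fun q => sqd (D.x q) c + e) p j = 2 * ((D.x p - c) ⬝ᵥ dd D.x p j) := by
  have h : (fun q => sqd (D.x q) c + e) = fun q => ((D.x q 0 - c 0) * (D.x q 0 - c 0) +
      ((D.x q 1 - c 1) * (D.x q 1 - c 1) + (D.x q 2 - c 2) * (D.x q 2 - c 2))) + e := by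
    funext q
    rw [sqd_eq]
  have m := md_xc D c p
  rw [h, dd_add (((m 0).mul (m 0)).add (((m 1).mul (m 1)).add ((m 2).mul (m 2)))) (md_const e p),
    dd_add ((m 0).mul (m 0)) (((m 1).mul (m 1)).add ((m 2).mul (m 2))),
    dd_add ((m 1).mul (m 1)) ((m 2).mul (m 2)), dd_mul (m 0) (m 0), dd_mul (m 1) (m 1),
    dd_mul (m 2) (m 2), dd_const, dd_xc, dd_xc, dd_xc]
  simp only [Matrix.vec3_dotProduct, Pi.sub_apply]
  ring

theorem md_sqd (D : Dat) (c : V3) (e : ℝ) (p : D.S) : MD (fun q => sqd (D.x q) c + e) p := by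
  have h : (fun q => sqd (D.x q) c + e) = fun q => ((D.x q 0 - c 0) * (D.x q 0 - c 0) +
      ((D.x q 1 - c 1) * (D.x q 1 - c 1) + (D.x q 2 - c 2) * (D.x q 2 - c 2))) + e := by
    funext q
    rw [sqd_eq]
  have m := md_xc D c p
  rw [h]
  exact (((m 0).mul (m 0)).add (((m 1).mul (m 1)).add ((m 2).mul (m 2)))).add (md_const e p)

theorem dd_ph (D : Dat) (c : V3) {ε : ℝ} (hε : 0 < ε) (p : D.S) (j : Fin 2) :
    dd (ph D c ε) p j = -(2 * ph D c ε p ^ 2 * ((D.x p - c) ⬝ᵥ dd D.x p j)) := by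
  have hne : sqd (D.x p) c + ε ^ 2 ≠ 0 := (sqd_pos _ c hε).ne'
  have hd : HasDerivAt (fun t : ℝ => 1 / t) (-1 / (sqd (D.x p) c + ε ^ 2) ^ 2)
      (sqd (D.x p) c + ε ^ 2) := by
    have h1 := hasDerivAt_inv hne
    have h2 : (fun t : ℝ => 1 / t) = fun t : ℝ => t⁻¹ := by
      funext t
      rw [one_div]
    rw [h2]
    have h3 : -1 / (sqd (D.x p) c + ε ^ 2) ^ 2 = -((sqd (D.x p) c + ε ^ 2) ^ 2)⁻¹ := by
      rw [neg_div, one_div]
    rw [h3]
    exact h1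
  have h : ph D c ε = fun q => (fun t : ℝ => 1 / t) (sqd (D.x q) c + ε ^ 2) := rfl
  rw [h, dd_comp (Φ := fun t : ℝ => 1 / t) (md_sqd D c (ε ^ 2) p) hd.differentiableAt,
    dd_sqd, fderiv_eq_smul_deriv, hd.deriv, smul_eq_mul]
  field_simp

theorem dd_Y (D : Dat) (c : V3) {ε : ℝ} (hε : 0 < ε) (p : D.S) (k : Fin 3) (j : Fin 2) :
    dd (fun q => ph D c ε q * (D.x q k - c k)) p j =
      ((-(2 * ph D c ε p ^ 2 * ((D.x p - c) ⬝ᵥ dd D.x p j))) • (D.x p - c) +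
        ph D c ε p • dd D.x p j) k := by
  rw [dd_mul (Dat.Sm.md D (sm_ph D c hε) p) (md_xc D c p k), dd_xc, dd_ph D c hε]
  simp only [Pi.add_apply, Pi.smul_apply, Pi.sub_apply, smul_eq_mul]
  ring

theorem dd_fv (D : Dat) (c : V3) {ε : ℝ} (hε : 0 < ε) (p : D.S) (i : Fin 3) (j : Fin 2) :
    dd (fv D c ε i) p j = (dd D.N p j ⨯₃ (ph D c ε p • (D.x p - c)) +
      D.N p ⨯₃ ((-(2 * ph D c ε p ^ 2 * ((D.x p - c) ⬝ᵥ dd D.x p j))) • (D.x p - c) +
        ph D c ε p • dd D.x p j)) i := by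
  have mN : ∀ k : Fin 3, MD (fun q => D.N q k) p := fun k => MD.coord (Dat.Sm.md D D.smN p) k
  have mY : ∀ k : Fin 3, MD (fun q => ph D c ε q * (D.x q k - c k)) p := fun k =>
    Dat.Sm.md D (sm_Y D c hε k) p
  have h : ∀ k l : Fin 3, dd (fun q => D.N q k * (ph D c ε q * (D.x q l - c l)) -
      D.N q l * (ph D c ε q * (D.x q k - c k))) p j =
      (D.N p k * (((-(2 * ph D c ε p ^ 2 * ((D.x p - c) ⬝ᵥ dd D.x p j))) • (D.x p - c) +
        ph D c ε p • dd D.x p j) l) + (ph D c ε p * (D.x p l - c l)) * dd D.N p j k) -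
      (D.N p l * (((-(2 * ph D c ε p ^ 2 * ((D.x p - c) ⬝ᵥ dd D.x p j))) • (D.x p - c) +
        ph D c ε p • dd D.x p j) k) + (ph D c ε p * (D.x p k - c k)) * dd D.N p j l) := by
    intro k l
    rw [dd_sub ((mN k).mul (mY l)) ((mN l).mul (mY k)), dd_mul (mN k) (mY l),
      dd_mul (mN l) (mY k), dd_Y D c hε, dd_Y D c hε, dd_coord (Dat.Sm.md D D.smN p),
      dd_coord (Dat.Sm.md D D.smN p)]
  generalize hZ : (-(2 * ph D c ε p ^ 2 * ((D.x p - c) ⬝ᵥ dd D.x p j))) • (D.x p - c) +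
        ph D c ε p • dd D.x p j = Z at h
  fin_cases i
  · change dd (fv D c ε 0) p j = (dd D.N p j ⨯₃ (ph D c ε p • (D.x p - c)) + D.N p ⨯₃ Z) 0
    rw [fv0, h 1 2]
    simp [cross_apply]
    ring
  · change dd (fv D c ε 1) p j = (dd D.N p j ⨯₃ (ph D c ε p • (D.x p - c)) + D.N p ⨯₃ Z) 1
    rw [fv1, h 2 0]
    simp [cross_apply]
    ring
  · change dd (fv D c ε 2) p j = (dd D.N p j ⨯₃ (ph D c ε p • (D.x p - c)) + D.N p ⨯₃ Z) 2
    rw [fv2, h 0 1]
    simp [cross_apply]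
    ring

theorem br_sum (h1 : T_SYM) (h2 : T_AL1) (D : Dat) (c : V3) {ε : ℝ} (hε : 0 < ε) {p : D.S}
    (hp : p ∈ D.int) : ∑ i : Fin 3, br D.x D.N (fv D c ε i) (fun q => D.x q i) p =
      2 * fe D c ε p ^ 2 + 2 * (ε ^ 2 * ph D c ε p ^ 2) - D.H ^ 2 / 2 := by
  have h3 := h2 _ _ _ _ _ _ (h1 D p hp) (D.x p - c) (ε ^ 2) (ph D c ε p) (pow_pos hε 2) rfl
  have h4 : ∀ i : Fin 3, br D.x D.N (fv D c ε i) (fun q => D.x q i) p =
      brk (dd D.x p 0) (dd D.x p 1) (D.N p)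
      ((dd D.N p 0 ⨯₃ (ph D c ε p • (D.x p - c)) +
        D.N p ⨯₃ ((-(2 * ph D c ε p ^ 2 * ((D.x p - c) ⬝ᵥ dd D.x p 0))) • (D.x p - c) +
        ph D c ε p • dd D.x p 0)) i)
      ((dd D.N p 1 ⨯₃ (ph D c ε p • (D.x p - c)) +
        D.N p ⨯₃ ((-(2 * ph D c ε p ^ 2 * ((D.x p - c) ⬝ᵥ dd D.x p 1))) • (D.x p - c) +
        ph D c ε p • dd D.x p 1)) i) (dd D.x p 0 i) (dd D.x p 1 i) := by
    intro i
    unfold br
    rw [dd_fv D c hε, dd_fv D c hε, dd_coord (Dat.Sm.md D D.smx p),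
      dd_coord (Dat.Sm.md D D.smx p)]
  rw [Finset.sum_congr rfl fun i _ => h4 i, h3]
  unfold fe
  ring

theorem cpt_deriv (r θ : ℝ) : deriv (fun τ => cpt r τ 0) θ = -(r * Real.sin θ) ∧
    deriv (fun τ => cpt r τ 1) θ = r * Real.cos θ ∧ deriv (fun τ => cpt r τ 2) θ = 0 := by
  refine ⟨?_, ?_, ?_⟩
  · have h : (fun τ => cpt r τ 0) = fun τ => r * Real.cos τ := by
      funext τ
      simp [cpt]
    rw [h, ((Real.hasDerivAt_cos θ).const_mul r).deriv]
    ring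
  · have h : (fun τ => cpt r τ 1) = fun τ => r * Real.sin τ := by
      funext τ
      simp [cpt]
    rw [h, ((Real.hasDerivAt_sin θ).const_mul r).deriv]
  · have h : (fun τ => cpt r τ 2) = fun _ => (0 : ℝ) := by
      funext τ
      simp [cpt]
    rw [h]
    simp

theorem bt_sum (h3 : T_NRM) (D : Dat) (γ : ℝ → D.S) (hγ : Bp D γ) (c : V3) (ε θ : ℝ) :
    fv D c ε 0 (γ θ) * -(D.r * Real.sin θ) + fv D c ε 1 (γ θ) * (D.r * Real.cos θ) =
      bt D γ c ε θ := by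
  obtain ⟨_, _, _, hN⟩ := h3 D γ hγ
  obtain ⟨hN0, hN1⟩ := hN θ
  have hz : D.N (γ θ) 2 = nz D γ θ := rfl
  have hx := hγ.eq θ
  have e1 : ph D c ε (γ θ) = 1 / (sqd (cpt D.r θ) c + ε ^ 2) := by
    unfold ph
    rw [hx]
  have e2 : bt D γ c ε θ = D.r * (((cpt D.r θ 0 - c 0) * (nz D γ θ * Real.cos θ) +
      (cpt D.r θ 1 - c 1) * (nz D γ θ * Real.sin θ)) + (cpt D.r θ 2 - c 2) * (-nr D γ θ)) *
      (1 / (sqd (cpt D.r θ) c + ε ^ 2)) := by
    unfold bt cf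
    rw [Matrix.vec3_dotProduct, div_eq_mul_one_div]
    simp only [Pi.sub_apply, Matrix.cons_val_zero, Matrix.cons_val_one, Matrix.cons_val]
  rw [fv0, fv1, e2]
  simp only
  rw [hN0, hN1, hz, hx, e1]
  generalize 1 / (sqd (cpt D.r θ) c + ε ^ 2) = w
  linear_combination (-(D.r * nr D γ θ * w * (cpt D.r θ 2 - c 2))) * Real.sin_sq_add_cos_sq θ

theorem pf_IEP (h1 : T_SYM) (h2 : T_AL1) (h3 : T_NRM) (h4 : T_CON) : T_IEP := by
  intro D γ s hγ hG c ε hε
  have hsmx : ∀ i : Fin 3, D.Sm (fun q => D.x q i) := fun i => Dat.Sm.coord D D.smx i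
  have hst : ∀ i : Fin 3, ∫ p in D.int, br D.x D.N (fv D c ε i) (fun q => D.x q i) p ∂D.μ =
      s * ∫ θ in (0 : ℝ)..(2 * Real.pi), fv D c ε i (γ θ) * deriv (fun τ => cpt D.r τ i) θ :=
    fun i => hG.2 (fv D c ε i) (fun y => y i) (sm_fv D c hε i) (by fun_prop)
  have hsum : ∫ p in D.int, (∑ i : Fin 3, br D.x D.N (fv D c ε i) (fun q => D.x q i) p) ∂D.μ =
      ∑ i : Fin 3, ∫ p in D.int, br D.x D.N (fv D c ε i) (fun q => D.x q i) p ∂D.μ := by
    refine integral_finsetSum _ fun i _ => ?_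
    exact (D.cont_int (h4 D _ _ (sm_fv D c hε i) (hsmx i)).2).integrableOn
  have hfe : Continuous (fe D c ε) := by
    have a1 := (sm_ph D c hε).continuous
    have a2 := D.smx.continuous
    have a3 := D.smN.continuous
    have a4 : Continuous fun p => (D.x p - c) ⬝ᵥ D.N p := by
      exact (a2.sub continuous_const).dotProduct a3
    exact (a1.mul a4).add continuous_const
  have hph : Continuous (ph D c ε) := (sm_ph D c hε).continuous
  have hL : ∫ p in D.int, (∑ i : Fin 3, br D.x D.N (fv D c ε i) (fun q => D.x q i) p) ∂D.μ =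
      2 * ∫ p in D.int, fe D c ε p ^ 2 ∂D.μ + 2 * ∫ p in D.int, ε ^ 2 * ph D c ε p ^ 2 ∂D.μ -
        D.H ^ 2 / 2 * ar D := by
    rw [setIntegral_congr_fun D.int_open.measurableSet fun p hp => br_sum h1 h2 D c hε hp]
    have i1 : Integrable (fun p => 2 * fe D c ε p ^ 2) (D.μ.restrict D.int) :=
      (D.cont_int (continuous_const.mul (hfe.pow 2))).integrableOn
    have i2 : Integrable (fun p => 2 * (ε ^ 2 * ph D c ε p ^ 2)) (D.μ.restrict D.int) :=
      (D.cont_int (continuous_const.mul (continuous_const.mul (hph.pow 2)))).integrableOn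
    have i3 : Integrable (fun p : D.S => D.H ^ 2 / 2) (D.μ.restrict D.int) :=
      integrable_const _
    have i12 : Integrable (fun p => 2 * fe D c ε p ^ 2 + 2 * (ε ^ 2 * ph D c ε p ^ 2))
      (D.μ.restrict D.int) := i1.add i2
    rw [integral_sub i12 i3, integral_add i1 i2, integral_const_mul, integral_const_mul,
      integral_const]
    unfold ar
    simp [Measure.real, mul_comm]
  have hR : ∑ i : Fin 3, (s * ∫ θ in (0 : ℝ)..(2 * Real.pi),
      fv D c ε i (γ θ) * deriv (fun τ => cpt D.r τ i) θ) =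
      s * ∫ θ in (0 : ℝ)..(2 * Real.pi), bt D γ c ε θ := by
    rw [Fin.sum_univ_three, ← mul_add, ← mul_add]
    have e0 : (fun θ => fv D c ε 0 (γ θ) * deriv (fun τ => cpt D.r τ 0) θ) =
        fun θ => fv D c ε 0 (γ θ) * -(D.r * Real.sin θ) := by
      funext θ
      rw [(cpt_deriv D.r θ).1]
    have e1 : (fun θ => fv D c ε 1 (γ θ) * deriv (fun τ => cpt D.r τ 1) θ) =
        fun θ => fv D c ε 1 (γ θ) * (D.r * Real.cos θ) := by
      funext θ
      rw [(cpt_deriv D.r θ).2.1]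
    have e2 : (fun θ => fv D c ε 2 (γ θ) * deriv (fun τ => cpt D.r τ 2) θ) =
        fun θ => (0 : ℝ) := by
      funext θ
      rw [(cpt_deriv D.r θ).2.2, mul_zero]
    have c0 : Continuous fun θ => fv D c ε 0 (γ θ) * -(D.r * Real.sin θ) :=
      ((sm_fv D c hε 0).continuous.comp hγ.cont).mul
        (continuous_const.mul Real.continuous_sin).neg
    have c1 : Continuous fun θ => fv D c ε 1 (γ θ) * (D.r * Real.cos θ) :=
      ((sm_fv D c hε 1).continuous.comp hγ.cont).mul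
        (continuous_const.mul Real.continuous_cos)
    rw [e0, e1, e2, intervalIntegral.integral_zero, add_zero,
      ← intervalIntegral.integral_add (c0.intervalIntegrable _ _) (c1.intervalIntegrable _ _)]
    congr 1
    exact intervalIntegral.integral_congr fun θ _ => bt_sum h3 D γ hγ c ε θ
  rw [Finset.sum_congr rfl fun i _ => hst i, hR, hL] at hsum
  linarith

end Pool.Agent.H4.AR
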